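import Mathlib

/-!
The region lemma: a graph of bounded degree with small splitting separators has a 2-colouring
with bounded monochromatic components.
-/

set_option autoImplicit false

namespace Pool.Agent.Lib.MP_de06d2_co

open SimpleGraph

section
variable {V : Type} [DecidableEq V]

/-- Connectedness of a finite vertex set expressed through cuts. -/
def CutConn (M : SimpleGraph V) (A : Finset V) : Prop :=
  ∀ B : Finset V, B ⊆ A → B.Nonempty → B ≠ A → ∃ x ∈ B, ∃ y ∈ A, y ∉ B ∧ M.Adj x y

/-- The outcome of the region lemma for the region `C`, the marks `X` and the colour `b`. -/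
def Good (M : SimpleGraph V) (m W : ℕ) (C X : Finset V) (b : Bool) : Prop :=
  ∃ (f : V → Bool) (Z : Finset V), X ⊆ Z ∧ Z ⊆ C ∧ Z.card ≤ m * 2 ^ X.card ∧
    (∀ z ∈ Z, f z = b) ∧ (∀ z ∈ Z, ∀ y ∈ C, y ∉ Z → M.Adj z y → f y = !b) ∧
    (∀ A ⊆ C, CutConn M A → (∀ x ∈ A, ∀ y ∈ A, f x = f y) → A.card ≤ W)

/-- If `Z` has colour `b` and its outside neighbours in `C` have the opposite colour, then a
connected monochromatic set meeting `Z` is inside `Z`. -/
theorem mono_subset {M : SimpleGraph V} {C Z A : Finset V} {b : Bool} {f : V → Bool}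
    (h1 : ∀ z ∈ Z, f z = b) (h2 : ∀ z ∈ Z, ∀ y ∈ C, y ∉ Z → M.Adj z y → f y = !b)
    (hA : A ⊆ C) (hc : CutConn M A) (hm : ∀ x ∈ A, ∀ y ∈ A, f x = f y)
    (hne : (A ∩ Z).Nonempty) : A ⊆ Z := by
  by_contra hcon
  have hneq : A ∩ Z ≠ A := by
    intro h
    apply hcon
    rw [← h]
    exact Finset.inter_subset_right
  obtain ⟨x, hx, y, hy, hyn, hxy⟩ := hc (A ∩ Z) Finset.inter_subset_left hne hneq
  rw [Finset.mem_inter] at hx
  have hyZ : y ∉ Z := fun h => hyn (Finset.mem_inter.mpr ⟨hy, h⟩)
  have e1 := h1 x hx.2
  have e2 := h2 x hx.2 y (hA hy) hyZ hxy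
  have e3 := hm x hx.1 y hy
  rw [e1, e2] at e3
  cases b <;> simp at e3

theorem good_small (M : SimpleGraph V) (D m W : ℕ) (hm : 0 < m) (hW : m * 2 ^ (D * m + m) ≤ W)
    (Nb : V → Finset V) (hNb : ∀ v, (Nb v).card ≤ D) (hNb' : ∀ v w, M.Adj v w → w ∈ Nb v)
    (C : Finset V)
    (ih : ∀ C' ⊆ C, C' ≠ C → ∀ X ⊆ C', X.card ≤ D * m + m → ∀ b, Good M m W C' X b)
    (X : Finset V) (hXC : X ⊆ C) (hne : X.Nonempty) (hX : X.card ≤ m) (b : Bool) :
    Good M m W C X b := by
  have hC' : C \ X ⊆ C := Finset.sdiff_subset
  have hC'ne : C \ X ≠ C := by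
    intro h
    obtain ⟨x, hx⟩ := hne
    have : x ∈ C \ X := by rw [h]; exact hXC hx
    exact (Finset.mem_sdiff.mp this).2 hx
  -- the marks of the next region
  have hX' : ((X.biUnion Nb) ∩ (C \ X)) ⊆ C \ X := Finset.inter_subset_right
  have hcard : ((X.biUnion Nb) ∩ (C \ X)).card ≤ D * m + m := by
    have h1 : ((X.biUnion Nb) ∩ (C \ X)).card ≤ (X.biUnion Nb).card :=
      Finset.card_le_card Finset.inter_subset_left
    have h2 : (X.biUnion Nb).card ≤ X.card * D := Finset.card_biUnion_le_card_mul _ _ _
      (fun v _ => hNb v)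
    have h3 : X.card * D ≤ m * D := Nat.mul_le_mul_right _ hX
    nlinarith
  obtain ⟨f, Z, hZ1, hZ2, hZ3, hf1, hf2, hf3⟩ := ih _ hC' hC'ne _ hX' hcard (!b)
  refine ⟨fun v => if v ∈ X then b else f v, X, le_rfl, hXC, ?_, ?_, ?_, ?_⟩
  · calc X.card ≤ m := hX
      _ ≤ m * 2 ^ X.card := Nat.le_mul_of_pos_right _ (by positivity)
  · intro z hz
    simp [hz]
  · intro z hz y hy hyX hzy
    simp only [hyX, if_false]
    apply hf1
    apply hZ1
    rw [Finset.mem_inter, Finset.mem_biUnion, Finset.mem_sdiff]
    exact ⟨⟨z, hz, hNb' _ _ hzy⟩, hy, hyX⟩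
  · intro A hA hAc hAm
    have hmW : m ≤ W := le_trans (Nat.le_mul_of_pos_right _ (by positivity)) hW
    by_cases hAX : (A ∩ X).Nonempty
    · have hsub : A ⊆ X := by
        refine mono_subset (C := C) (b := b) (f := fun v => if v ∈ X then b else f v)
          ?_ ?_ hA hAc hAm hAX
        · intro z hz
          simp [hz]
        · intro z hz y hy hyX hzy
          simp only [hyX, if_false]
          apply hf1
          apply hZ1
          rw [Finset.mem_inter, Finset.mem_biUnion, Finset.mem_sdiff]
          exact ⟨⟨z, hz, hNb' _ _ hzy⟩, hy, hyX⟩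
      exact ((Finset.card_le_card hsub).trans hX).trans hmW
    · rw [Finset.not_nonempty_iff_eq_empty] at hAX
      have hAX' : ∀ a ∈ A, a ∉ X := by
        intro a ha haX
        have : a ∈ A ∩ X := Finset.mem_inter.mpr ⟨ha, haX⟩
        rw [hAX] at this
        simp at this
      refine hf3 A ?_ hAc ?_
      · intro a ha
        exact Finset.mem_sdiff.mpr ⟨hA ha, hAX' a ha⟩
      · intro x hx y hy
        have := hAm x hx y hy
        simpa [hAX' x hx, hAX' y hy] using this

/-- The region lemma. -/
theorem region (M : SimpleGraph V) (D s N W : ℕ)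
    (hW : (N + s + 1) * 2 ^ (D * (N + s + 1) + (N + s + 1)) ≤ W)
    (Nb : V → Finset V) (hNb : ∀ v, (Nb v).card ≤ D) (hNb' : ∀ v w, M.Adj v w → w ∈ Nb v)
    (hsplit : ∀ X : Finset V, N + s + 1 < X.card → ∃ H Q : Finset V, Disjoint H Q ∧ Q.card ≤ s ∧
      (∀ x ∈ H, ∀ y, M.Adj x y → y ∈ H ∪ Q) ∧ s < (X ∩ H).card ∧ (X ∩ H).card ≤ N) :
    ∀ n : ℕ, ∀ j : ℕ, ∀ C X : Finset V, C.card ≤ n → X.card ≤ j → X ⊆ C →
      X.card ≤ D * (N + s + 1) + (N + s + 1) → ∀ b, Good M (N + s + 1) W C X b := by
  set m := N + s + 1 with hm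
  have hm0 : 0 < m := by omega
  intro n
  induction n with
  | zero =>
    intro j C X hC _ hXC _ b
    have hC0 : C = ∅ := Finset.card_eq_zero.mp (by omega)
    subst hC0
    have hX0 : X = ∅ := Finset.subset_empty.mp hXC
    subst hX0
    refine ⟨fun _ => true, ∅, by simp, by simp, by simp, by simp, by simp, ?_⟩
    intro A hA _ _
    have := Finset.card_le_card hA
    simp at this
    simp [this]
  | succ n ihn =>
    have ih' : ∀ C : Finset V, C.card ≤ n + 1 →
        ∀ C' ⊆ C, C' ≠ C → ∀ X ⊆ C', X.card ≤ D * m + m → ∀ b, Good M m W C' X b := by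
      intro C hC C' hC' hne X hX hXc b
      have hlt : C'.card < C.card :=
        Finset.card_lt_card (Finset.ssubset_iff_subset_ne.mpr ⟨hC', hne⟩)
      exact ihn X.card C' X (by omega) le_rfl hX hXc b
    have hsmall : ∀ C : Finset V, C.card ≤ n + 1 → ∀ X : Finset V, X ⊆ C → X.Nonempty →
        X.card ≤ m → ∀ b, Good M m W C X b := by
      intro C hC X hXC hne hX b
      exact good_small M D m W hm0 hW Nb hNb hNb' C (ih' C hC) X hXC hne hX b
    intro j
    induction j with
    | zero =>
      intro C X hC hX0 hXC _ b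
      have hX0 : X = ∅ := Finset.card_eq_zero.mp (by omega)
      subst hX0
      by_cases hCe : C = ∅
      · subst hCe
        refine ⟨fun _ => true, ∅, by simp, by simp, by simp, by simp, by simp, ?_⟩
        intro A hA _ _
        have := Finset.card_le_card hA
        simp at this
        simp [this]
      · obtain ⟨v, hv⟩ := Finset.nonempty_iff_ne_empty.mpr hCe
        obtain ⟨f, Z, hZ1, hZ2, hZ3, hf1, hf2, hf3⟩ := hsmall C hC {v} (by simpa using hv)
          (by simp) (by simp; omega) b
        exact ⟨f, ∅, by simp, by simp, by simp, by simp, by simp, hf3⟩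
    | succ j ihj =>
      intro C X hC hXj hXC hXM b
      by_cases hXs : X.card ≤ m
      · by_cases hne : X.Nonempty
        · exact hsmall C hC X hXC hne hXs b
        · rw [Finset.not_nonempty_iff_eq_empty] at hne
          subst hne
          exact ihj C ∅ hC (by simp) hXC hXM b
      · push Not at hXs
        obtain ⟨H, Q, hHQ, hQ, hcl, hXH1, hXH2⟩ := hsplit X hXs
        -- first part
        have hX1 : ((X ∩ H) ∪ (C ∩ Q)).card + 1 ≤ X.card := by
          have h1 := Finset.card_union_le (X ∩ H) (C ∩ Q)
          have h2 : (C ∩ Q).card ≤ Q.card := Finset.card_le_card Finset.inter_subset_right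
          omega
        have hX2 : ((X \ H) ∪ (C ∩ Q)).card + 1 ≤ X.card := by
          have h1 := Finset.card_union_le (X \ H) (C ∩ Q)
          have h2 : (C ∩ Q).card ≤ Q.card := Finset.card_le_card Finset.inter_subset_right
          have h3 := Finset.card_sdiff_add_card_inter X H
          omega
        obtain ⟨f1, Z1, hZ11, hZ12, hZ13, hf11, hf12, hf13⟩ :=
          ihj (C ∩ (H ∪ Q)) ((X ∩ H) ∪ (C ∩ Q))
            ((Finset.card_le_card Finset.inter_subset_left).trans hC) (by omega)
            (by
              intro x hx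
              simp only [Finset.mem_union, Finset.mem_inter] at hx ⊢
              rcases hx with hx | hx
              · exact ⟨hXC hx.1, Or.inl hx.2⟩
              · exact ⟨hx.1, Or.inr hx.2⟩) (by omega) b
        obtain ⟨f2, Z2, hZ21, hZ22, hZ23, hf21, hf22, hf23⟩ :=
          ihj (C \ H) ((X \ H) ∪ (C ∩ Q))
            ((Finset.card_le_card Finset.sdiff_subset).trans hC) (by omega)
            (by
              intro x hx
              simp only [Finset.mem_union, Finset.mem_inter, Finset.mem_sdiff] at hx ⊢
              rcases hx with hx | hx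
              · exact ⟨hXC hx.1, hx.2⟩
              · exact ⟨hx.1, fun h => (Finset.disjoint_left.mp hHQ h hx.2)⟩) (by omega) b
        have hQZ1 : ∀ x ∈ C, x ∈ Q → x ∈ Z1 := fun x hx hxQ =>
          hZ11 (Finset.mem_union_right _ (Finset.mem_inter.mpr ⟨hx, hxQ⟩))
        have hQZ2 : ∀ x ∈ C, x ∈ Q → x ∈ Z2 := fun x hx hxQ =>
          hZ21 (Finset.mem_union_right _ (Finset.mem_inter.mpr ⟨hx, hxQ⟩))
        -- the combined colouring
        set f : V → Bool := fun v => if v ∈ H then f1 v else f2 v with hf
        have hfH : ∀ v ∈ C, v ∈ H ∪ Q → f v = f1 v := by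
          intro v hv hvH
          simp only [hf]
          by_cases hvH' : v ∈ H
          · simp [hvH']
          · simp only [hvH', if_false]
            have hvQ : v ∈ Q := (Finset.mem_union.mp hvH).resolve_left hvH'
            rw [hf21 v (hQZ2 v hv hvQ), hf11 v (hQZ1 v hv hvQ)]
        have hfN : ∀ v, v ∉ H → f v = f2 v := by
          intro v hv
          simp [hf, hv]
        have hZ1C : ∀ z ∈ Z1, z ∈ C ∧ z ∈ H ∪ Q := fun z hz => Finset.mem_inter.mp (hZ12 hz)
        have hZ2C : ∀ z ∈ Z2, z ∈ C ∧ z ∉ H := fun z hz => Finset.mem_sdiff.mp (hZ22 hz)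
        have hcol : ∀ z ∈ Z1 ∪ Z2, f z = b := by
          intro z hz
          rcases Finset.mem_union.mp hz with hz | hz
          · rw [hfH z (hZ1C z hz).1 (hZ1C z hz).2]
            exact hf11 z hz
          · rw [hfN z (hZ2C z hz).2]
            exact hf21 z hz
        have hbd : ∀ z ∈ Z1 ∪ Z2, ∀ y ∈ C, y ∉ Z1 ∪ Z2 → M.Adj z y → f y = !b := by
          intro z hz y hy hyZ hzy
          rw [Finset.mem_union, not_or] at hyZ
          rcases Finset.mem_union.mp hz with hz | hz
          · -- `z ∈ Z1`
            have hzC := hZ1C z hz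
            by_cases hyH : y ∈ H ∪ Q
            · rw [hfH y hy hyH]
              exact hf12 z hz y (Finset.mem_inter.mpr ⟨hy, hyH⟩) hyZ.1 hzy
            · have hzH : z ∉ H := fun h => hyH (hcl z h y hzy)
              have hzQ : z ∈ Q := (Finset.mem_union.mp hzC.2).resolve_left hzH
              have hyH' : y ∉ H := fun h => hyH (Finset.mem_union_left _ h)
              rw [hfN y hyH']
              exact hf22 z (hQZ2 z hzC.1 hzQ) y (Finset.mem_sdiff.mpr ⟨hy, hyH'⟩) hyZ.2 hzy
          · have hzC := hZ2C z hz
            by_cases hyH : y ∈ H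
            · -- then `z ∈ Q`
              have hzHQ := hcl y hyH z hzy.symm
              have hzQ : z ∈ Q := (Finset.mem_union.mp hzHQ).resolve_left hzC.2
              rw [hfH y hy (Finset.mem_union_left _ hyH)]
              exact hf12 z (hQZ1 z hzC.1 hzQ) y
                (Finset.mem_inter.mpr ⟨hy, Finset.mem_union_left _ hyH⟩) hyZ.1 hzy
            · rw [hfN y hyH]
              exact hf22 z hz y (Finset.mem_sdiff.mpr ⟨hy, hyH⟩) hyZ.2 hzy
        have hZcard : (Z1 ∪ Z2).card ≤ m * 2 ^ X.card := by
          have h1 := Finset.card_union_le Z1 Z2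
          have h2 : m * 2 ^ ((X ∩ H) ∪ (C ∩ Q)).card ≤ m * 2 ^ (X.card - 1) :=
            Nat.mul_le_mul_left _ (Nat.pow_le_pow_right (by norm_num) (by omega))
          have h3 : m * 2 ^ ((X \ H) ∪ (C ∩ Q)).card ≤ m * 2 ^ (X.card - 1) :=
            Nat.mul_le_mul_left _ (Nat.pow_le_pow_right (by norm_num) (by omega))
          have h4 : m * 2 ^ X.card = m * 2 ^ (X.card - 1) + m * 2 ^ (X.card - 1) := by
            have : X.card = (X.card - 1) + 1 := by omega
            conv_lhs => rw [this, pow_succ]
            ring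
          omega
        refine ⟨f, Z1 ∪ Z2, ?_, ?_, hZcard, hcol, hbd, ?_⟩
        · intro x hx
          rw [Finset.mem_union]
          by_cases hxH : x ∈ H
          · exact Or.inl (hZ11 (Finset.mem_union_left _ (Finset.mem_inter.mpr ⟨hx, hxH⟩)))
          · exact Or.inr (hZ21 (Finset.mem_union_left _ (Finset.mem_sdiff.mpr ⟨hx, hxH⟩)))
        · intro z hz
          rcases Finset.mem_union.mp hz with hz | hz
          · exact (hZ1C z hz).1
          · exact (hZ2C z hz).1
        · intro A hA hAc hAm
          by_cases hAZ : (A ∩ (Z1 ∪ Z2)).Nonempty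
          · have hsub := mono_subset hcol hbd hA hAc hAm hAZ
            calc A.card ≤ (Z1 ∪ Z2).card := Finset.card_le_card hsub
              _ ≤ m * 2 ^ X.card := hZcard
              _ ≤ m * 2 ^ (D * m + m) :=
                Nat.mul_le_mul_left _ (Nat.pow_le_pow_right (by norm_num) hXM)
              _ ≤ W := hW
          · rw [Finset.not_nonempty_iff_eq_empty] at hAZ
            have hAQ : ∀ a ∈ A, a ∉ Q := by
              intro a ha haQ
              have : a ∈ A ∩ (Z1 ∪ Z2) := by
                rw [Finset.mem_inter, Finset.mem_union]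
                exact ⟨ha, Or.inl (hQZ1 a (hA ha) haQ)⟩
              rw [hAZ] at this
              simp at this
            by_cases hAH : (A ∩ H).Nonempty
            · -- `A ⊆ H`
              have hsub : A ⊆ H := by
                by_contra hcon
                have hneq : A ∩ H ≠ A := by
                  intro h
                  apply hcon
                  rw [← h]
                  exact Finset.inter_subset_right
                obtain ⟨x, hx, y, hy, hyn, hxy⟩ :=
                  hAc (A ∩ H) Finset.inter_subset_left hAH hneq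
                have hyHQ := hcl x (Finset.mem_inter.mp hx).2 y hxy
                rcases Finset.mem_union.mp hyHQ with h | h
                · exact hyn (Finset.mem_inter.mpr ⟨hy, h⟩)
                · exact hAQ y hy h
              refine hf13 A ?_ hAc ?_
              · intro a ha
                exact Finset.mem_inter.mpr ⟨hA ha, Finset.mem_union_left _ (hsub ha)⟩
              · intro x hx y hy
                have := hAm x hx y hy
                rwa [hfH x (hA hx) (Finset.mem_union_left _ (hsub hx)),
                  hfH y (hA hy) (Finset.mem_union_left _ (hsub hy))] at this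
            · rw [Finset.not_nonempty_iff_eq_empty] at hAH
              have hAH' : ∀ a ∈ A, a ∉ H := by
                intro a ha haH
                have : a ∈ A ∩ H := Finset.mem_inter.mpr ⟨ha, haH⟩
                rw [hAH] at this
                simp at this
              refine hf23 A ?_ hAc ?_
              · intro a ha
                exact Finset.mem_sdiff.mpr ⟨hA ha, hAH' a ha⟩
              · intro x hx y hy
                have := hAm x hx y hy
                rwa [hfN x (hAH' x hx), hfN y (hAH' y hy)] at this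

end

end Pool.Agent.Lib.MP_de06d2_co
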