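import Pool.Agent.Lib.MP_de06d2_co.Split
import Pool.Agent.Lib.MP_de06d2_co.Region

/-!
Graphs of girth at least seven and bounded treewidth are 2-colourable with bounded clustering.
-/

set_option autoImplicit false

namespace Pool.Agent.Lib.MP_de06d2_co

open SimpleGraph

section
variable {V : Type}

/-- In a graph of girth at least seven, two paths with the same ends and total length at most six
coincide. -/
theorem path_unique_of_girth {G : SimpleGraph V} (hg : (7 : ℕ∞) ≤ G.egirth) {u v : V}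
    (p q : G.Walk u v) (hp : p.IsPath) (hq : q.IsPath) (hl : p.length + q.length ≤ 6) : p = q := by
  by_contra h
  obtain ⟨w, _, _, c, hc, hl'⟩ := hp.exists_isCycle_length_le_add_of_ne hq h
  have h7 := le_egirth.mp hg w c hc
  norm_cast at h7
  omega

/-- The final colouring is obtained by recursion along the rank. -/
theorem exists_recolour (rigid : V → V → Prop) (ρ : V → ℕ)
    (h1 : ∀ w v, rigid w v → ρ w < ρ v) (h2 : ∀ w w' v, rigid w v → rigid w' v → w = w')
    (f0 : V → Bool) :
    ∃ f : V → Bool, (∀ w v, rigid w v → f v = !f w) ∧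
      (∀ v, (¬ ∃ w, rigid w v) → f v = f0 v) := by
  classical
  let F : ∀ v : V, (∀ w : V, ρ w < ρ v → Bool) → Bool := fun v rec =>
    if h : ∃ w, rigid w v then !(rec h.choose (h1 _ _ h.choose_spec)) else f0 v
  let f : V → Bool := WellFounded.fix (C := fun _ => Bool) (measure ρ).wf F
  have hf : ∀ v, f v = F v (fun w _ => f w) := fun v => WellFounded.fix_eq _ _ _
  refine ⟨f, ?_, ?_⟩
  · intro w v hwv
    rw [hf v]
    have h : ∃ w, rigid w v := ⟨w, hwv⟩
    simp only [F, h, dif_pos]
    rw [h2 _ _ _ h.choose_spec hwv]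
  · intro v hv
    rw [hf v]
    simp only [F, hv, dif_neg, not_false_eq_true]

end

section
variable {V : Type} [Fintype V] [DecidableEq V] {G : SimpleGraph V} {k : ℕ}

open Classical in
/-- The exceptional younger neighbours of `a`. -/
noncomputable def Xs (E : Elim G k) (a : V) : Finset V :=
  Finset.univ.filter (fun u => G.Adj a u ∧ E.ρ a < E.ρ u ∧
    ∃ s ∈ E.S a, ∃ w : G.Walk u s, w.length ≤ 2 ∧ a ∉ w.support)

omit [DecidableEq V] in
theorem mem_Xs {E : Elim G k} {a u : V} : u ∈ Xs E a ↔ G.Adj a u ∧ E.ρ a < E.ρ u ∧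
    ∃ s ∈ E.S a, ∃ w : G.Walk u s, w.length ≤ 2 ∧ a ∉ w.support := by
  simp [Xs]

theorem card_Xs_le (E : Elim G k) (hg : (7 : ℕ∞) ≤ G.egirth) (a : V) : (Xs E a).card ≤ k := by
  have hex : ∀ u ∈ Xs E a, ∃ s ∈ E.S a, ∃ p : G.Walk a s, p.IsPath ∧ p.length ≤ 3 ∧
      p.getVert 1 = u := by
    intro u hu
    obtain ⟨h1, _, s, hs, w, hw, haw⟩ := mem_Xs.mp hu
    refine ⟨s, hs, Walk.cons h1 w.bypass, ?_, ?_, ?_⟩
    · rw [Walk.cons_isPath_iff]
      exact ⟨w.bypass_isPath, fun h => haw (w.support_bypass_subset_support h)⟩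
    · have := w.length_bypass_le_length
      rw [Walk.length_cons]
      omega
    · simp
  choose! σ hσ using hex
  refine le_trans (Finset.card_le_card_of_injOn σ (fun u hu => (hσ u hu).1) ?_) (E.card_le a)
  intro u hu u' hu' heq
  obtain ⟨-, p, hp, hpl, hp1⟩ := hσ u hu
  obtain ⟨-, q, hq, hql, hq1⟩ := hσ u' hu'
  generalize σ u = x at *
  subst heq
  have := path_unique_of_girth hg p q hp hq (by omega)
  calc u = p.getVert 1 := hp1.symm
    _ = q.getVert 1 := by rw [this]
    _ = u' := hq1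

/-- `rigid a u`: `a` is an older neighbour of `u` and `u` is not exceptional for `a`. -/
def Rigid (E : Elim G k) (a u : V) : Prop := G.Adj a u ∧ E.ρ a < E.ρ u ∧ u ∉ Xs E a

omit [DecidableEq V] in
theorem Rigid.unique {E : Elim G k} {a b u : V} (h1 : Rigid E a u) (h2 : Rigid E b u) :
    a = b := by
  have aux : ∀ a b : V, Rigid E a u → Rigid E b u → ¬ E.ρ a < E.ρ b := by
    intro a b h1 h2 hlt
    apply h2.2.2
    rw [mem_Xs]
    refine ⟨h2.1, h2.2.1, a, ?_, ?_⟩
    · exact E.clique u b a (E.adj u b h2.1.symm h2.2.1) (E.adj u a h1.1.symm h1.2.1) hlt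
    · refine ⟨Walk.cons h1.1.symm Walk.nil, by simp, ?_⟩
      simp only [Walk.support_cons, Walk.support_nil, List.mem_cons, List.not_mem_nil, or_false,
        not_or]
      refine ⟨h2.1.ne, ?_⟩
      rintro rfl
      exact lt_irrefl _ hlt
  rcases lt_trichotomy (E.ρ a) (E.ρ b) with h | h | h
  · exact absurd h (aux a b h1 h2)
  · exact E.inj h
  · exact absurd h (aux b a h2 h1)

/-- The graph of the non-rigid edges. -/
def Rg (E : Elim G k) : SimpleGraph V where
  Adj x y := G.Adj x y ∧ ¬ Rigid E x y ∧ ¬ Rigid E y x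
  symm := ⟨fun _ _ h => ⟨h.1.symm, h.2.2, h.2.1⟩⟩
  loopless := ⟨fun _ h => h.1.ne rfl⟩

/-- Neighbourhoods in `Rg` are small. -/
noncomputable def NbR (E : Elim G k) (v : V) : Finset V := E.S v ∪ Xs E v

theorem card_NbR_le (E : Elim G k) (hg : (7 : ℕ∞) ≤ G.egirth) (v : V) :
    (NbR E v).card ≤ 2 * k := by
  have h1 := Finset.card_union_le (E.S v) (Xs E v)
  have h2 := E.card_le v
  have h3 := card_Xs_le E hg v
  unfold NbR
  omega

theorem mem_NbR {E : Elim G k} {v w : V} (h : (Rg E).Adj v w) : w ∈ NbR E v := by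
  obtain ⟨h1, h2, h3⟩ := h
  unfold NbR
  rw [Finset.mem_union]
  rcases lt_trichotomy (E.ρ w) (E.ρ v) with hlt | heq | hlt
  · exact Or.inl (E.adj v w h1 hlt)
  · exact absurd (E.inj heq).symm h1.ne
  · right
    by_contra hcon
    exact h2 ⟨h1, hlt, hcon⟩

omit [DecidableEq V] in
/-- Two vertices with rigid parents are not joined by a non-rigid edge. -/
theorem indep_rigid (E : Elim G k) (hg : (7 : ℕ∞) ≤ G.egirth) {u v a b : V}
    (hau : Rigid E a u) (hbv : Rigid E b v) (huv : (Rg E).Adj u v) : False := by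
  have huv' := huv.1
  have hav : a ≠ v := by
    rintro rfl
    exact huv.2.2 hau
  have hbu : b ≠ u := by
    rintro rfl
    exact huv.2.1 hbv
  have hab : a ≠ b := by
    rintro rfl
    -- a triangle
    have hp := path_unique_of_girth hg (Walk.cons huv' Walk.nil)
      (Walk.cons hau.1.symm (Walk.cons hbv.1 Walk.nil))
      (by
        rw [Walk.cons_isPath_iff]
        refine ⟨by simp, ?_⟩
        simpa using huv'.ne)
      (by
        rw [Walk.cons_isPath_iff, Walk.cons_isPath_iff]
        refine ⟨⟨by simp, ?_⟩, ?_⟩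
        · simpa using hav
        · simp only [Walk.support_cons, Walk.support_nil, List.mem_cons, List.not_mem_nil,
            or_false, not_or]
          exact ⟨hau.1.ne', huv'.ne⟩)
      (by simp)
    have := congrArg Walk.length hp
    simp at this
  have aux : ∀ u v a b : V, Rigid E a u → Rigid E b v → G.Adj u v → a ≠ v → a ≠ b →
      E.ρ b < E.ρ a → False := by
    intro u v a b hau hbv huv' hav hab hlt
    apply hau.2.2
    rw [mem_Xs]
    refine ⟨hau.1, hau.2.1, ?_⟩
    have hanc : Anc E u a := Relation.ReflTransGen.single (E.adj u a hau.1.symm hau.2.1)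
    rcases hanc.adj huv' with h | h
    · -- `a` is an ancestor of `v`
      rcases h.adj hbv.1.symm with h' | h'
      · have := h'.rank_le
        omega
      · refine ⟨b, h', Walk.cons huv' (Walk.cons hbv.1.symm Walk.nil), by simp, ?_⟩
        simp only [Walk.support_cons, Walk.support_nil, List.mem_cons, List.not_mem_nil,
            or_false, not_or]
        exact ⟨hau.1.ne, hav, hab⟩
    · refine ⟨v, h, Walk.cons huv' Walk.nil, by simp, ?_⟩
      simp only [Walk.support_cons, Walk.support_nil, List.mem_cons, List.not_mem_nil,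
            or_false, not_or]
      exact ⟨hau.1.ne, hav⟩
  rcases lt_trichotomy (E.ρ a) (E.ρ b) with h | h | h
  · exact aux v u b a hbv hau huv'.symm hbu hab.symm h
  · exact hab (E.inj h)
  · exact aux u v a b hau hbv huv' hav hab h

/-- The square of `Rg`. -/
def Sq (E : Elim G k) : SimpleGraph V where
  Adj x y := x ≠ y ∧ ((Rg E).Adj x y ∨ ∃ z, (Rg E).Adj x z ∧ (Rg E).Adj z y)
  symm := ⟨fun _ _ h => ⟨h.1.symm, h.2.imp (fun h => h.symm)
    (fun ⟨z, h1, h2⟩ => ⟨z, h2.symm, h1.symm⟩)⟩⟩
  loopless := ⟨fun _ h => h.1 rfl⟩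

/-- Neighbourhoods in `Sq` are small. -/
noncomputable def NbS (E : Elim G k) (v : V) : Finset V := NbR E v ∪ (NbR E v).biUnion (NbR E)

theorem card_NbS_le (E : Elim G k) (hg : (7 : ℕ∞) ≤ G.egirth) (v : V) :
    (NbS E v).card ≤ 2 * k + (2 * k) * (2 * k) := by
  have h1 := Finset.card_union_le (NbR E v) ((NbR E v).biUnion (NbR E))
  have h2 := card_NbR_le E hg v
  have h3 : ((NbR E v).biUnion (NbR E)).card ≤ (NbR E v).card * (2 * k) :=
    Finset.card_biUnion_le_card_mul _ _ _ (fun w _ => card_NbR_le E hg w)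
  have h4 : (NbR E v).card * (2 * k) ≤ (2 * k) * (2 * k) := Nat.mul_le_mul_right _ h2
  unfold NbS
  omega

theorem mem_NbS {E : Elim G k} {v w : V} (h : (Sq E).Adj v w) : w ∈ NbS E v := by
  obtain ⟨_, h | ⟨z, h1, h2⟩⟩ := h
  · exact Finset.mem_union_left _ (mem_NbR h)
  · exact Finset.mem_union_right _ (Finset.mem_biUnion.mpr ⟨z, mem_NbR h1, mem_NbR h2⟩)

theorem split_Sq (E : Elim G k) (hg : (7 : ℕ∞) ≤ G.egirth) (s : ℕ)
    (hs : s = (k + 1) + (k + 1) * (2 * k)) (X : Finset V)
    (hX : 2 * s < X.card) :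
    ∃ H Q : Finset V, Disjoint H Q ∧ Q.card ≤ s ∧
      (∀ x ∈ H, ∀ y, (Sq E).Adj x y → y ∈ H ∪ Q) ∧ s < (X ∩ H).card ∧
      (X ∩ H).card ≤ 4 * s + 1 := by
  obtain ⟨H, Q, hHQ, hQ, hcl, h1, h2⟩ := split E (2 * s) X hX
  set Q' := Q ∪ Q.biUnion (NbR E) with hQ'
  have hQ'card : Q'.card ≤ s := by
    have e1 : Q'.card ≤ Q.card + (Q.biUnion (NbR E)).card := Finset.card_union_le _ _
    have e2 : (Q.biUnion (NbR E)).card ≤ Q.card * (2 * k) :=
      Finset.card_biUnion_le_card_mul _ _ _ (fun w _ => card_NbR_le E hg w)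
    have e3 : Q.card * (2 * k) ≤ (k + 1) * (2 * k) := Nat.mul_le_mul_right _ hQ
    omega
  refine ⟨H \ Q', Q', Finset.sdiff_disjoint, hQ'card, ?_, ?_, ?_⟩
  · intro x hx y hxy
    rw [Finset.mem_sdiff] at hx
    obtain ⟨hxH, hxQ⟩ := hx
    have key : ∀ y, y ∈ H ∪ Q → y ∈ H \ Q' ∪ Q' := by
      intro y hy
      rw [Finset.mem_union, Finset.mem_sdiff]
      by_cases hyQ : y ∈ Q'
      · exact Or.inr hyQ
      · left
        refine ⟨?_, hyQ⟩
        rcases Finset.mem_union.mp hy with h | h
        · exact h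
        · exact absurd (Finset.mem_union_left _ h) hyQ
    obtain ⟨_, h | ⟨z, hz1, hz2⟩⟩ := hxy
    · exact key y (hcl x hxH y h.1)
    · have hz := hcl x hxH z hz1.1
      rcases Finset.mem_union.mp hz with h | h
      · exact key y (hcl z h y hz2.1)
      · exfalso
        apply hxQ
        exact Finset.mem_union_right _ (Finset.mem_biUnion.mpr ⟨z, h, mem_NbR hz1.symm⟩)
  · have e1 : X ∩ H ⊆ (X ∩ (H \ Q')) ∪ Q' := by
      intro x hx
      rw [Finset.mem_inter] at hx
      rw [Finset.mem_union, Finset.mem_inter, Finset.mem_sdiff]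
      by_cases hxQ : x ∈ Q'
      · exact Or.inr hxQ
      · exact Or.inl ⟨hx.1, hx.2, hxQ⟩
    have e2 := Finset.card_le_card e1
    have e3 := Finset.card_union_le (X ∩ (H \ Q')) Q'
    omega
  · have e1 : X ∩ (H \ Q') ⊆ X ∩ H := Finset.inter_subset_inter_left Finset.sdiff_subset
    have e2 := Finset.card_le_card e1
    omega

/-- The bound on the clustering of the auxiliary colouring. -/
def auxBound (k : ℕ) : ℕ :=
  let s := (k + 1) + (k + 1) * (2 * k)
  let D := 2 * k + (2 * k) * (2 * k)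
  ((4 * s + 1) + s + 1) * 2 ^ (D * ((4 * s + 1) + s + 1) + ((4 * s + 1) + s + 1))

/-- Core statement in terms of elimination structures. -/
theorem core_elim (E : Elim G k) (hg : (7 : ℕ∞) ≤ G.egirth) :
    ∃ f : V → Bool, ∀ A : Finset V, CutConn G A → (∀ x ∈ A, ∀ y ∈ A, f x = f y) →
      A.card ≤ auxBound k + auxBound k * (2 * k) + 1 := by
  classical
  set s := (k + 1) + (k + 1) * (2 * k) with hs
  set D := 2 * k + (2 * k) * (2 * k) with hD
  set W := auxBound k with hW
  have hreg := region (Sq E) D s (4 * s + 1) W (le_of_eq rfl) (NbS E)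
    (card_NbS_le E hg) (fun v w h => mem_NbS h)
    (fun X hX => split_Sq E hg s hs X (by omega))
    (Finset.univ : Finset V).card 0 Finset.univ ∅ le_rfl (by simp) (by simp) (by simp) true
  obtain ⟨f0, -, -, -, -, -, -, hf0⟩ := hreg
  obtain ⟨f, hf1, hf2⟩ := exists_recolour (Rigid E) E.ρ (fun w v h => h.2.1)
    (fun w w' v h h' => h.unique h') f0
  refine ⟨f, ?_⟩
  intro A hA hm
  -- edges inside `A` are non-rigid
  have hRA : CutConn (Rg E) A := by
    intro B hB hBne hBA
    obtain ⟨x, hx, y, hy, hyB, hxy⟩ := hA B hB hBne hBA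
    refine ⟨x, hx, y, hy, hyB, hxy, ?_, ?_⟩
    · intro h
      have e1 := hf1 _ _ h
      rw [hm y hy x (hB hx)] at e1
      cases hfx : f x <;> simp [hfx] at e1
    · intro h
      have e1 := hf1 _ _ h
      rw [hm x (hB hx) y hy] at e1
      cases hfx : f y <;> simp [hfx] at e1
  set A' := A.filter (fun v => ¬ ∃ w, Rigid E w v) with hA'
  have hA'card : A'.card ≤ W := by
    refine hf0 A' (Finset.subset_univ _) ?_ ?_
    · intro B hB hBne hBA
      set B' := B ∪ A.filter (fun v => (∃ w, Rigid E w v) ∧ ∃ z ∈ B, (Rg E).Adj z v) with hB'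
      have hB'A : B' ⊆ A := by
        intro x hx
        rcases Finset.mem_union.mp hx with h | h
        · exact (Finset.mem_filter.mp (hB h)).1
        · exact (Finset.mem_filter.mp h).1
      have hB'ne : B'.Nonempty := hBne.mono Finset.subset_union_left
      have hB'neA : B' ≠ A := by
        intro heq
        apply hBA
        apply Finset.Subset.antisymm hB
        intro x hx
        rw [hA', Finset.mem_filter] at hx
        have : x ∈ B' := by rw [heq]; exact hx.1
        rcases Finset.mem_union.mp this with h | h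
        · exact h
        · exact absurd (Finset.mem_filter.mp h).2.1 hx.2
      obtain ⟨x, hx, y, hy, hyB, hxy⟩ := hRA B' hB'A hB'ne hB'neA
      have hyB1 : y ∉ B := fun h => hyB (Finset.mem_union_left _ h)
      rcases Finset.mem_union.mp hx with hxB | hxU
      · have hyU : ¬ ∃ w, Rigid E w y := by
          intro h
          apply hyB
          exact Finset.mem_union_right _ (Finset.mem_filter.mpr ⟨hy, h, x, hxB, hxy⟩)
        refine ⟨x, hxB, y, Finset.mem_filter.mpr ⟨hy, hyU⟩, hyB1, hxy.ne, Or.inl hxy⟩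
      · obtain ⟨hxA, ⟨a, hax⟩, z, hzB, hzx⟩ := Finset.mem_filter.mp hxU
        have hyU : ¬ ∃ w, Rigid E w y := by
          rintro ⟨b, hby⟩
          exact indep_rigid E hg hax hby hxy
        refine ⟨z, hzB, y, Finset.mem_filter.mpr ⟨hy, hyU⟩, hyB1, ?_, Or.inr ⟨x, hzx, hxy⟩⟩
        rintro rfl
        exact hyB1 hzB
    · intro x hx y hy
      rw [hA', Finset.mem_filter] at hx hy
      rw [← hf2 x hx.2, ← hf2 y hy.2]
      exact hm x hx.1 y hy.1
  by_cases hone : ∃ u, A = {u}
  · obtain ⟨u, hu⟩ := hone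
    rw [hu, Finset.card_singleton]
    omega
  · have hsub : A ⊆ A' ∪ A'.biUnion (NbR E) := by
      intro u hu
      rw [Finset.mem_union]
      by_cases huU : ∃ w, Rigid E w u
      · right
        obtain ⟨a, hau⟩ := huU
        obtain ⟨x, hx, y, hy, hyu, hxy⟩ := hRA {u} (by simpa using hu) (by simp)
          (fun h => hone ⟨u, h.symm⟩)
        rw [Finset.mem_singleton] at hx
        subst hx
        rw [Finset.mem_biUnion]
        refine ⟨y, ?_, mem_NbR hxy.symm⟩
        rw [hA', Finset.mem_filter]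
        refine ⟨hy, ?_⟩
        rintro ⟨b, hby⟩
        exact indep_rigid E hg hau hby hxy
      · left
        exact Finset.mem_filter.mpr ⟨hu, huU⟩
    have e1 := Finset.card_le_card hsub
    have e2 := Finset.card_union_le A' (A'.biUnion (NbR E))
    have e3 : (A'.biUnion (NbR E)).card ≤ A'.card * (2 * k) :=
      Finset.card_biUnion_le_card_mul _ _ _ (fun w _ => card_NbR_le E hg w)
    have e4 : A'.card * (2 * k) ≤ W * (2 * k) := Nat.mul_le_mul_right _ hA'card
    omega

end

/-- A set inducing a connected subgraph is connected in the sense of cuts. -/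
theorem cutConn_of_connected {V : Type} [DecidableEq V] (G : SimpleGraph V) (A : Finset V)
    (h : (G.induce (A : Set V)).Connected) : CutConn G A := by
  intro B hB hBne hBA
  obtain ⟨x, hx⟩ := hBne
  have : ∃ y ∈ A, y ∉ B := by
    by_contra hcon
    push Not at hcon
    exact hBA (Finset.Subset.antisymm hB hcon)
  obtain ⟨y, hy, hyB⟩ := this
  obtain ⟨w, hw⟩ := exists_walk_of_induce_connected G (A : Set V) h x y (hB hx) hy
  obtain ⟨d, hd, hd1, hd2⟩ := w.exists_boundary_dart (B : Set V) (by simpa using hx)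
    (by simpa using hyB)
  refine ⟨d.fst, by simpa using hd1, d.snd, ?_, by simpa using hd2, d.adj⟩
  have := hw _ (w.dart_snd_mem_support_of_mem_darts hd)
  simpa using this

/-- Main theorem: girth at least seven and treewidth at most `k`. -/
theorem main (k : ℕ) : ∃ c : ℕ, ∀ (V : Type) [Fintype V] (G : SimpleGraph V),
    (7 : ℕ∞) ≤ G.egirth →
    (∃ n : ℕ, ∃ T : SimpleGraph (Fin n), T.IsTree ∧ ∃ B : Fin n → Finset V,
      (∀ i, (B i).card ≤ k + 1) ∧
      (∀ v : V, ∃ i, v ∈ B i) ∧
      (∀ u v : V, G.Adj u v → ∃ i, u ∈ B i ∧ v ∈ B i) ∧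
      (∀ v : V, (T.induce {i | v ∈ B i}).Connected)) →
    ∃ f : V → Fin 2, ∀ s : Finset V, (∀ x ∈ s, ∀ y ∈ s, f x = f y) →
      (G.induce (s : Set V)).Connected → s.card ≤ c := by
  classical
  refine ⟨auxBound k + auxBound k * (2 * k) + 1, ?_⟩
  intro V _ G hg ⟨n, T, hT, B, hB, hcov, hadj, hconn⟩
  obtain ⟨E⟩ := exists_elim G k n T hT B hB hcov hadj hconn
  obtain ⟨f, hf⟩ := core_elim E hg
  refine ⟨fun v => if f v then 1 else 0, ?_⟩
  intro s hs hconn'
  refine hf s (cutConn_of_connected G s hconn') ?_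
  intro x hx y hy
  have := hs x hx y hy
  cases hfx : f x <;> cases hfy : f y <;> simp [hfx, hfy] at this ⊢

end Pool.Agent.Lib.MP_de06d2_co
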