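import Pool.Agent.Lib.MP_de06d2_co.TreeElim

/-!
The splitting lemma: small separators that cut off a controlled number of marked vertices.
-/

set_option autoImplicit false

namespace Pool.Agent.Lib.MP_de06d2_co

open SimpleGraph

section
variable {V : Type} {G : SimpleGraph V} {k : ℕ}

/-- `Anc E x a`: `a` is an ancestor of `x` or equal to `x`. -/
def Anc (E : Elim G k) (x a : V) : Prop := Relation.ReflTransGen (fun x w => w ∈ E.S x) x a

theorem Anc.rank_le {E : Elim G k} {x a : V} (h : Anc E x a) : E.ρ a ≤ E.ρ x := by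
  induction h with
  | refl => exact le_rfl
  | tail _ h2 ih => exact (E.lt _ _ h2).le.trans ih

theorem Anc.head {E : Elim G k} {x y a : V} (h : y ∈ E.S x) (h' : Anc E y a) : Anc E x a :=
  Relation.ReflTransGen.head h h'

theorem Anc.tail {E : Elim G k} {x y a : V} (h' : Anc E x y) (h : a ∈ E.S y) : Anc E x a :=
  Relation.ReflTransGen.tail h' h

/-- The key lemma. -/
theorem Anc.key {E : Elim G k} {x a w : V} (h : Anc E x a) (hw : w ∈ E.S x) :
    Anc E w a ∨ w ∈ E.S a := by
  induction h using Relation.ReflTransGen.head_induction_on generalizing w with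
  | refl => exact Or.inr hw
  | @head x z hz hza ih =>
    rcases lt_trichotomy (E.ρ w) (E.ρ z) with h | h | h
    · exact ih (E.clique _ _ _ hz hw h)
    · have := E.inj h
      subst this
      exact Or.inl hza
    · exact Or.inl (Anc.head (E.clique _ _ _ hw hz h) hza)

theorem Anc.adj {E : Elim G k} {x a y : V} (h : Anc E x a) (hxy : G.Adj x y) :
    Anc E y a ∨ y ∈ E.S a := by
  rcases lt_trichotomy (E.ρ x) (E.ρ y) with h1 | h1 | h1
  · exact Or.inl (Anc.head (E.adj _ _ hxy.symm h1) h)
  · exact absurd (E.inj h1) hxy.ne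
  · exact h.key (E.adj _ _ hxy h1)

end

section
variable {V : Type} [Fintype V] [DecidableEq V] {G : SimpleGraph V} {k : ℕ}

open Classical in
/-- The vertices having `c` as an ancestor (`c` included). -/
noncomputable def Sub (E : Elim G k) (c : V) : Finset V :=
  Finset.univ.filter (fun x => Anc E x c)

omit [DecidableEq V] in
theorem mem_Sub {E : Elim G k} {c x : V} : x ∈ Sub E c ↔ Anc E x c := by
  simp [Sub]

theorem split_aux (E : Elim G k) (X Q C : Finset V) (t : ℕ)
    (h1 : ∀ c ∈ C, E.S c ⊆ Q) (h2 : ∀ c ∈ C, ∀ x ∈ Q, ¬ Anc E x c)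
    (h3 : ∀ c ∈ C, (X ∩ Sub E c).card ≤ t + 1)
    (h4 : t < (X ∩ C.biUnion (Sub E)).card) :
    ∃ H : Finset V, Disjoint H Q ∧ (∀ x ∈ H, ∀ y, G.Adj x y → y ∈ H ∪ Q) ∧
      t < (X ∩ H).card ∧ (X ∩ H).card ≤ 2 * t + 1 := by
  have hJ : ∃ J ⊆ C, t < (X ∩ J.biUnion (Sub E)).card ∧
      (X ∩ J.biUnion (Sub E)).card ≤ 2 * t + 1 := by
    clear h1 h2
    induction C using Finset.induction_on with
    | empty => simp at h4
    | insert c C hc ih =>
      by_cases hlt : t < (X ∩ C.biUnion (Sub E)).card
      · obtain ⟨J, hJ, hJ'⟩ := ih (fun c hc => h3 c (Finset.mem_insert_of_mem hc)) hlt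
        exact ⟨J, hJ.trans (Finset.subset_insert _ _), hJ'⟩
      · refine ⟨insert c C, le_rfl, h4, ?_⟩
        push Not at hlt
        rw [Finset.biUnion_insert, Finset.inter_union_distrib_left]
        have := Finset.card_union_le (X ∩ Sub E c) (X ∩ C.biUnion (Sub E))
        have := h3 c (Finset.mem_insert_self _ _)
        omega
  obtain ⟨J, hJC, hJ1, hJ2⟩ := hJ
  refine ⟨J.biUnion (Sub E), ?_, ?_, hJ1, hJ2⟩
  · rw [Finset.disjoint_left]
    intro x hx hx'
    rw [Finset.mem_biUnion] at hx
    obtain ⟨c, hc, hxc⟩ := hx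
    exact h2 c (hJC hc) x hx' (mem_Sub.mp hxc)
  · intro x hx y hxy
    rw [Finset.mem_biUnion] at hx
    obtain ⟨c, hc, hxc⟩ := hx
    rw [Finset.mem_union]
    rcases (mem_Sub.mp hxc).adj hxy with h | h
    · left
      rw [Finset.mem_biUnion]
      exact ⟨c, hc, mem_Sub.mpr h⟩
    · right
      exact h1 c (hJC hc) h

theorem split (E : Elim G k) (t : ℕ) (X : Finset V) (hX : t < X.card) :
    ∃ H Q : Finset V, Disjoint H Q ∧ Q.card ≤ k + 1 ∧
      (∀ x ∈ H, ∀ y, G.Adj x y → y ∈ H ∪ Q) ∧
      t < (X ∩ H).card ∧ (X ∩ H).card ≤ 2 * t + 1 := by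
  classical
  have hsub : ∀ c : V, (X ∩ Sub E c).card ≤ (X ∩ (Sub E c).erase c).card + 1 := by
    intro c
    have : X ∩ Sub E c ⊆ insert c (X ∩ (Sub E c).erase c) := by
      intro x hx
      rw [Finset.mem_inter] at hx
      rw [Finset.mem_insert, Finset.mem_inter, Finset.mem_erase]
      by_cases hxc : x = c
      · exact Or.inl hxc
      · exact Or.inr ⟨hx.1, hxc, hx.2⟩
    exact (Finset.card_le_card this).trans (Finset.card_insert_le _ _)
  by_cases hcase : ∃ v, t < (X ∩ (Sub E v).erase v).card
  · -- choose such `v` of maximal rank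
    obtain ⟨v0, hv0⟩ := hcase
    obtain ⟨v, hv, hvmax⟩ := Finset.exists_max_image
      (Finset.univ.filter (fun v => t < (X ∩ (Sub E v).erase v).card)) E.ρ
      ⟨v0, by simpa using hv0⟩
    rw [Finset.mem_filter] at hv
    have hv' := hv.2
    have hmax : ∀ c, E.ρ v < E.ρ c → (X ∩ (Sub E c).erase c).card ≤ t := by
      intro c hc
      by_contra hcon
      push Not at hcon
      have := hvmax c (by simpa using hcon)
      omega
    obtain ⟨H, hH1, hH2, hH3, hH4⟩ := split_aux E X (insert v (E.S v))
      (Finset.univ.filter (fun c => v ∈ E.S c ∧ E.S c ⊆ insert v (E.S v))) t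
      (by
        intro c hc
        exact (Finset.mem_filter.mp hc).2.2)
      (by
        intro c hc x hx hanc
        have h1 := E.lt _ _ (Finset.mem_filter.mp hc).2.1
        have h2 := hanc.rank_le
        rw [Finset.mem_insert] at hx
        rcases hx with rfl | hx
        · omega
        · have := E.lt _ _ hx
          omega)
      (by
        intro c hc
        have h1 := E.lt _ _ (Finset.mem_filter.mp hc).2.1
        have := hsub c
        have := hmax c h1
        omega)
      (by
        refine lt_of_lt_of_le hv' (Finset.card_le_card ?_)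
        refine Finset.inter_subset_inter_left ?_
        intro x hx
        rw [Finset.mem_erase, mem_Sub] at hx
        obtain ⟨hxv, hxa⟩ := hx
        -- the set of candidates
        have hne : ∃ c, Anc E x c ∧ v ∈ E.S c := by
          rcases Relation.ReflTransGen.cases_tail hxa with h | ⟨c, hc1, hc2⟩
          · exact absurd h.symm hxv
          · exact ⟨c, hc1, hc2⟩
        obtain ⟨c0, hc0⟩ := hne
        obtain ⟨c, hc, hcmin⟩ := Finset.exists_min_image
          (Finset.univ.filter (fun c => Anc E x c ∧ v ∈ E.S c)) E.ρ ⟨c0, by simpa using hc0⟩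
        rw [Finset.mem_filter] at hc
        rw [Finset.mem_biUnion]
        refine ⟨c, ?_, mem_Sub.mpr hc.2.1⟩
        rw [Finset.mem_filter]
        refine ⟨Finset.mem_univ _, hc.2.2, ?_⟩
        intro w hw
        rw [Finset.mem_insert]
        rcases lt_trichotomy (E.ρ w) (E.ρ v) with h | h | h
        · exact Or.inr (E.clique _ _ _ hc.2.2 hw h)
        · exact Or.inl (E.inj h)
        · exfalso
          have h1 := E.clique _ _ _ hw hc.2.2 h
          have h2 := hcmin w (by
            rw [Finset.mem_filter]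
            exact ⟨Finset.mem_univ _, hc.2.1.tail hw, h1⟩)
          have := E.lt _ _ hw
          omega)
    refine ⟨H, insert v (E.S v), hH1, ?_, hH2, hH3, hH4⟩
    have := Finset.card_insert_le v (E.S v)
    have := E.card_le v
    omega
  · push Not at hcase
    obtain ⟨H, hH1, hH2, hH3, hH4⟩ := split_aux E X ∅
      (Finset.univ.filter (fun c => E.S c = ∅)) t
      (by
        intro c hc
        exact (Finset.mem_filter.mp hc).2.subset)
      (by simp)
      (by
        intro c hc
        have := hsub c
        have := hcase c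
        omega)
      (by
        refine lt_of_lt_of_le hX (Finset.card_le_card ?_)
        intro x hx
        rw [Finset.mem_inter]
        refine ⟨hx, ?_⟩
        obtain ⟨c, hc, hcmin⟩ := Finset.exists_min_image
          (Finset.univ.filter (fun c => Anc E x c)) E.ρ
          ⟨x, Finset.mem_filter.mpr ⟨Finset.mem_univ _, Relation.ReflTransGen.refl⟩⟩
        rw [Finset.mem_filter] at hc
        rw [Finset.mem_biUnion]
        refine ⟨c, ?_, mem_Sub.mpr hc.2⟩
        rw [Finset.mem_filter]
        refine ⟨Finset.mem_univ _, ?_⟩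
        rw [Finset.eq_empty_iff_forall_notMem]
        intro w hw
        have h2 := hcmin w (by
          rw [Finset.mem_filter]
          exact ⟨Finset.mem_univ _, hc.2.tail hw⟩)
        have := E.lt _ _ hw
        omega)
    exact ⟨H, ∅, hH1, by simp, hH2, hH3, hH4⟩

end

end Pool.Agent.Lib.MP_de06d2_co
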