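import Mathlib

/-!
From a tree decomposition to an elimination order.
-/

set_option autoImplicit false

namespace Pool.Agent.Lib.MP_de06d2_co

open SimpleGraph

/-- An elimination structure of width `k` for the graph `G`: an injective rank `ρ` (small rank =
old vertex) and for each vertex `v` a set `S v` of at most `k` older vertices, which contains all
older neighbours of `v`, and such that the members of `S v` are related among themselves. -/
structure Elim {V : Type} (G : SimpleGraph V) (k : ℕ) where
  /-- the rank -/
  ρ : V → ℕ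
  /-- the older bag members -/
  S : V → Finset V
  inj : Function.Injective ρ
  card_le : ∀ v, (S v).card ≤ k
  lt : ∀ v w, w ∈ S v → ρ w < ρ v
  adj : ∀ v w, G.Adj v w → ρ w < ρ v → w ∈ S v
  clique : ∀ v w x, w ∈ S v → x ∈ S v → ρ x < ρ w → x ∈ S w

/-- A walk inside an induced subgraph. -/
theorem exists_walk_of_walk_induce {ι : Type} (T : SimpleGraph ι) (A : Set ι) {a b : A}
    (p : (T.induce A).Walk a b) :
    ∃ w : T.Walk (a : ι) (b : ι), ∀ x ∈ w.support, x ∈ A := by
  induction p with
  | nil => 
    rename_i u
    exact ⟨Walk.nil, by simp⟩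
  | cons h q ih =>
    obtain ⟨w, hw⟩ := ih
    refine ⟨Walk.cons (by simpa using h) w, ?_⟩
    intro x hx
    rw [Walk.support_cons, List.mem_cons] at hx
    rcases hx with rfl | hx
    · exact Subtype.property _
    · exact hw x hx

/-- A walk inside an induced connected subgraph. -/
theorem exists_walk_of_induce_connected {ι : Type} (T : SimpleGraph ι) (A : Set ι)
    (h : (T.induce A).Connected) (a b : ι) (ha : a ∈ A) (hb : b ∈ A) :
    ∃ w : T.Walk a b, ∀ x ∈ w.support, x ∈ A := by
  obtain ⟨p⟩ := h.preconnected ⟨a, ha⟩ ⟨b, hb⟩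
  exact exists_walk_of_walk_induce T A p

theorem tree_key {ι V : Type} (T : SimpleGraph ι) (hT : T.IsTree) (B : ι → Finset V)
    (hconn : ∀ v : V, (T.induce {i | v ∈ B i}).Connected) (r : ι) (top : V → ι)
    (htop : ∀ v, v ∈ B (top v)) (hmin : ∀ v i, v ∈ B i → T.dist r (top v) ≤ T.dist r i)
    (v w : V) (i : ι) (hv : v ∈ B i) (hw : w ∈ B i)
    (hle : T.dist r (top w) ≤ T.dist r (top v)) : w ∈ B (top v) := by
  classical
  by_contra hna
  have hTc : T.Connected := hT.connected
  have hba : top w ≠ top v := by
    intro h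
    apply hna
    rw [← h]
    exact htop w
  have hpos : T.dist r (top v) ≠ 0 := by
    intro h0
    have h1 : T.dist r (top w) = 0 := by omega
    have e1 : r = top v := hTc.dist_eq_zero_iff.mp h0
    have e2 : r = top w := hTc.dist_eq_zero_iff.mp h1
    exact hba (e2.symm.trans e1)
  -- shortest walk from `top v` to `r`
  obtain ⟨p, hp⟩ := hTc.exists_walk_length_eq_dist (top v) r
  have hp' : p.length = T.dist r (top v) := by rw [hp, dist_comm]
  cases p with
  | nil => exact hpos (by simp)
  | @cons _ a' _ hadj q =>
    have hq : q.length + 1 = T.dist r (top v) := by simpa using hp'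
    -- `q : a' → r`
    have hda' : T.dist r a' < T.dist r (top v) := by
      have := dist_le q
      rw [dist_comm] at this
      omega
    obtain ⟨w2, hw2⟩ := hTc.exists_walk_length_eq_dist r (top w)
    obtain ⟨w3, hw3⟩ := exists_walk_of_induce_connected T _ (hconn w) (top w) i (htop w) hw
    obtain ⟨w4, hw4⟩ := exists_walk_of_induce_connected T _ (hconn v) i (top v) hv (htop v)
    have hbridge := isAcyclic_iff_forall_adj_isBridge.mp hT.isAcyclic hadj.symm
    have hmem := isBridge_iff_forall_walk_mem_edges.mp hbridge
      (q.append (w2.append (w3.append w4)))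
    simp only [Walk.edges_append, List.mem_append] at hmem
    rcases hmem with h | h | h | h
    · have := q.snd_mem_support_of_mem_edges h
      have h1 := dist_le (q.dropUntil (top v) this)
      have h2 := q.length_dropUntil_le_length this
      rw [dist_comm] at h1
      omega
    · have h0 := w2.snd_mem_support_of_mem_edges h
      have h1 := dist_le (w2.takeUntil (top v) h0)
      have h2 := Walk.length_takeUntil_lt_length h0 hba.symm
      omega
    · have h0 := w3.snd_mem_support_of_mem_edges h
      exact hna (hw3 _ h0)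
    · have h0 := w4.fst_mem_support_of_mem_edges h
      have h1 := hmin v a' (hw4 _ h0)
      omega

/-- Every graph with a tree decomposition of width at most `k` has an elimination structure of
width `k`. -/
theorem exists_elim {V : Type} [Fintype V] (G : SimpleGraph V) (k : ℕ)
    (n : ℕ) (T : SimpleGraph (Fin n)) (hT : T.IsTree) (B : Fin n → Finset V)
    (hB : ∀ i, (B i).card ≤ k + 1)
    (hcov : ∀ v : V, ∃ i, v ∈ B i)
    (hadj : ∀ u v : V, G.Adj u v → ∃ i, u ∈ B i ∧ v ∈ B i)
    (hconn : ∀ v : V, (T.induce {i | v ∈ B i}).Connected) : Nonempty (Elim G k) := by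
  classical
  obtain ⟨r⟩ : Nonempty (Fin n) := hT.connected.nonempty
  have htop : ∀ v : V, ∃ t : Fin n, v ∈ B t ∧ ∀ i, v ∈ B i → T.dist r t ≤ T.dist r i := by
    intro v
    obtain ⟨i0, hi0⟩ := hcov v
    obtain ⟨t, ht, htm⟩ := Finset.exists_min_image (Finset.univ.filter (fun i => v ∈ B i))
      (fun i => T.dist r i) ⟨i0, by simp [hi0]⟩
    refine ⟨t, by simpa using ht, ?_⟩
    intro i hi
    exact htm i (by simp [hi])
  choose top htop1 htop2 using htop
  have key := tree_key T hT B hconn r top htop1 htop2
  let e := Fintype.equivFin V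
  let N := Fintype.card V
  let ρ : V → ℕ := fun v => T.dist r (top v) * N + (e v : ℕ)
  have hρle : ∀ v w, ρ w < ρ v → T.dist r (top w) ≤ T.dist r (top v) := by
    intro v w h
    by_contra hlt
    push Not at hlt
    have h1 : (e v : ℕ) < N := (e v).2
    have h2 : (T.dist r (top v) + 1) * N ≤ T.dist r (top w) * N :=
      Nat.mul_le_mul_right _ hlt
    simp only [ρ] at h
    nlinarith
  have hinj : Function.Injective ρ := by
    intro v w h
    have h1 : (e v : ℕ) < N := (e v).2
    have h2 : (e w : ℕ) < N := (e w).2
    have h3 : (e v : ℕ) = (e w : ℕ) := by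
      have := congrArg (· % N) h
      simp only [ρ] at this
      rw [Nat.mul_add_mod', Nat.mul_add_mod', Nat.mod_eq_of_lt h1, Nat.mod_eq_of_lt h2] at this
      exact this
    exact e.injective (Fin.ext h3)
  refine ⟨⟨ρ, fun v => (B (top v)).filter (fun w => ρ w < ρ v), hinj, ?_, ?_, ?_, ?_⟩⟩
  · intro v
    have hsub : (B (top v)).filter (fun w => ρ w < ρ v) ⊆ (B (top v)).erase v := by
      intro w hw
      rw [Finset.mem_filter] at hw
      rw [Finset.mem_erase]
      refine ⟨?_, hw.1⟩
      rintro rfl
      exact lt_irrefl _ hw.2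
    have h1 := Finset.card_le_card hsub
    rw [Finset.card_erase_of_mem (htop1 v)] at h1
    have := hB (top v)
    omega
  · intro v w hw
    exact (Finset.mem_filter.mp hw).2
  · intro v w hvw hlt
    rw [Finset.mem_filter]
    obtain ⟨i, hi1, hi2⟩ := hadj v w hvw
    exact ⟨key v w i hi1 hi2 (hρle _ _ hlt), hlt⟩
  · intro v w x hw hx hlt
    rw [Finset.mem_filter] at hw hx ⊢
    exact ⟨key w x (top v) hw.1 hx.1 (hρle _ _ hlt), hlt⟩

end Pool.Agent.Lib.MP_de06d2_co
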